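import Pool.Agent.H95.MM3

set_option autoImplicit false

open Pool.Agent.H95.Mms

theorem Pool.Agent.Results.MP_5a76a9_gt.Fell.result :
    @Topology.IsEmbedding Pyr (TopologicalSpace.Closeds Cl) weakTop (fell Cl) Pyr.val :=
  emb_fell
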